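import Pool.Agent.X232.SF.Mon

/-! The concrete group `G = ∏ Perm (ℤ/2 × (ℤ/(n+1))³)` and its subgroup of lamp configurations. -/

set_option autoImplicit false

namespace Pool.Agent.X232.SF

open Equiv

/-- triples -/
abbrev Om (A : Type) : Type := A × A × A

section ring

variable (A : Type) [CommRing A]

/-- the involution -/
def sE : Perm (Om A) where
  toFun p := (p.2.2, -p.2.1, p.1)
  invFun p := (p.2.2, -p.2.1, p.1)
  left_inv p := by simp
  right_inv p := by simp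

/-- the element of order three -/
def uE : Perm (Om A) where
  toFun p := (p.1 + 2 * p.2.1 + p.2.2, -p.1 - p.2.1, p.1)
  invFun p := (p.2.2, -p.2.1 - p.2.2, p.1 + 2 * p.2.1 + p.2.2)
  left_inv p := by
    rcases p with ⟨x, y, z⟩
    simp only [Prod.mk.injEq]
    refine ⟨trivial, by ring, by ring⟩
  right_inv p := by
    rcases p with ⟨x, y, z⟩
    simp only [Prod.mk.injEq]
    refine ⟨by ring, by ring, trivial⟩

lemma sE_mul : sE A * sE A = 1 := by
  ext1 p
  rcases p with ⟨x, y, z⟩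
  show ((x, - -y, z) : Om A) = (x, y, z)
  rw [neg_neg]

lemma uE_mul : uE A * (uE A * uE A) = 1 := by
  ext1 p
  rcases p with ⟨x, y, z⟩
  simp only [Perm.mul_apply, Perm.one_apply, uE, coe_fn_mk, Prod.mk.injEq]
  refine ⟨by ring, by ring, by ring⟩

lemma L_apply (p : Om A) : (sE A * uE A) p = (p.1, p.1 + p.2.1, p.1 + 2 * p.2.1 + p.2.2) := by
  simp only [Perm.mul_apply, sE, uE, coe_fn_mk, Prod.mk.injEq]
  refine ⟨trivial, by ring, trivial⟩

lemma R_apply (p : Om A) : (sE A * (uE A * uE A)) p =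
    (p.1 + 2 * p.2.1 + p.2.2, p.2.1 + p.2.2, p.2.2) := by
  simp only [Perm.mul_apply, sE, uE, coe_fn_mk, Prod.mk.injEq]
  refine ⟨trivial, by ring, by ring⟩

end ring

/-- reduction modulo `n + 1` -/
def pr (n : ℕ) (p : Om ℤ) : Om (ZMod (n + 1)) := (p.1, p.2.1, p.2.2)

lemma pr_s (n : ℕ) (p : Om ℤ) : pr n (sE ℤ p) = sE (ZMod (n + 1)) (pr n p) := by
  simp [pr, sE]

lemma pr_u (n : ℕ) (p : Om ℤ) : pr n (uE ℤ p) = uE (ZMod (n + 1)) (pr n p) := by
  simp [pr, uE]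

/-- The group. -/
abbrev GC : Type := ∀ n : ℕ, Perm (ZMod 2 × Om (ZMod (n + 1)))

/-- permutations of the second component -/
def lf (γ : ∀ n : ℕ, Perm (Om (ZMod (n + 1)))) : GC := fun n => Equiv.prodCongr (Equiv.refl _) (γ n)

lemma lf_apply (γ : ∀ n : ℕ, Perm (Om (ZMod (n + 1)))) (n : ℕ) (p : ZMod 2 × Om (ZMod (n + 1))) :
    lf γ n p = (p.1, γ n p.2) := rfl

lemma lf_mul (γ δ : ∀ n : ℕ, Perm (Om (ZMod (n + 1)))) : lf (γ * δ) = lf γ * lf δ := by
  funext n; ext1 p; rfl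

lemma lf_one : lf 1 = 1 := by
  funext n; ext1 p; rfl

/-- lamp configurations -/
noncomputable def aa (f : Om ℤ →₀ ZMod 2) : GC := fun n =>
  { toFun := fun p => (p.1 + Finsupp.mapDomain (pr n) f p.2, p.2)
    invFun := fun p => (p.1 - Finsupp.mapDomain (pr n) f p.2, p.2)
    left_inv := fun p => by simp
    right_inv := fun p => by simp }

lemma aa_apply (f : Om ℤ →₀ ZMod 2) (n : ℕ) (p : ZMod 2 × Om (ZMod (n + 1))) :
    aa f n p = (p.1 + Finsupp.mapDomain (pr n) f p.2, p.2) := rfl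

lemma aa_add (f g : Om ℤ →₀ ZMod 2) : aa (f + g) = aa f * aa g := by
  funext n; ext1 p
  rw [Pi.mul_apply, Perm.mul_apply, aa_apply, aa_apply, aa_apply, Finsupp.mapDomain_add,
    Finsupp.add_apply]
  refine Prod.ext ?_ rfl
  simp only
  ring

lemma aa_zero : aa 0 = 1 := by
  funext n; ext1 p
  rw [aa_apply, Finsupp.mapDomain_zero]
  refine Prod.ext ?_ rfl
  simp

lemma aa_neg (f : Om ℤ →₀ ZMod 2) : aa (-f) = (aa f)⁻¹ := by
  rw [eq_inv_iff_mul_eq_one, ← aa_add, neg_add_cancel, aa_zero]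

lemma conj (γ : ∀ n : ℕ, Perm (Om (ZMod (n + 1)))) (γZ : Perm (Om ℤ))
    (h : ∀ n p, pr n (γZ p) = γ n (pr n p)) (f : Om ℤ →₀ ZMod 2) :
    lf γ * aa f * (lf γ)⁻¹ = aa (Finsupp.mapDomain γZ f) := by
  rw [mul_inv_eq_iff_eq_mul]
  funext n; ext1 p
  rw [Pi.mul_apply, Perm.mul_apply, Pi.mul_apply, Perm.mul_apply, aa_apply, lf_apply, lf_apply,
    aa_apply]
  refine Prod.ext ?_ rfl
  simp only
  congr 1
  rw [← Finsupp.mapDomain_comp]
  have e : (pr n) ∘ (γZ : Om ℤ → Om ℤ) = (γ n : _ → _) ∘ pr n := funext fun p => h n p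
  rw [e, Finsupp.mapDomain_comp, Finsupp.mapDomain_apply (γ n).injective]

/-- separating finitely many points -/
lemma exists_n (S : Finset (Om ℤ)) : ∃ n : ℕ, 1 ≤ n ∧ Set.InjOn (pr n) (S : Set (Om ℤ)) := by
  classical
  let B : ℕ := ∑ p ∈ S, (p.1.natAbs + p.2.1.natAbs + p.2.2.natAbs)
  have hB : ∀ p ∈ S, p.1.natAbs + p.2.1.natAbs + p.2.2.natAbs ≤ B := fun p hp =>
    Finset.single_le_sum (f := fun p : Om ℤ => p.1.natAbs + p.2.1.natAbs + p.2.2.natAbs)
      (fun _ _ => Nat.zero_le _) hp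
  refine ⟨2 * B + 2, by omega, ?_⟩
  have key : ∀ a b : ℤ, a.natAbs ≤ B → b.natAbs ≤ B → ((a : ZMod (2 * B + 2 + 1)) = b) → a = b := by
    intro a b ha hb h
    rw [← sub_eq_zero, ← Int.cast_sub, ZMod.intCast_zmod_eq_zero_iff_dvd] at h
    by_contra hne
    have h2 := Int.natAbs_dvd_natAbs.2 h
    have h3 := Nat.le_of_dvd (Int.natAbs_pos.2 (sub_ne_zero.2 hne)) h2
    have h4 : ((2 * B + 2 + 1 : ℕ) : ℤ).natAbs = 2 * B + 2 + 1 := Int.natAbs_natCast _
    rw [h4] at h3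
    have h5 := Int.natAbs_sub_le a b
    omega
  rintro ⟨x, y, z⟩ hp ⟨x', y', z'⟩ hq h
  have h1 := hB _ hp
  have h2 := hB _ hq
  simp only [pr, Prod.mk.injEq] at h h1 h2
  rw [key x x' (by omega) (by omega) h.1, key y y' (by omega) (by omega) h.2.1,
    key z z' (by omega) (by omega) h.2.2]

lemma exists_ne (f : Om ℤ →₀ ZMod 2) (hf : f ≠ 0) :
    ∃ n : ℕ, 1 ≤ n ∧ ∃ w, Finsupp.mapDomain (pr n) f w ≠ 0 := by
  obtain ⟨n, hn, hinj⟩ := exists_n f.support
  obtain ⟨w, hw⟩ := Finsupp.support_nonempty_iff.2 hf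
  refine ⟨n, hn, pr n w, ?_⟩
  rw [Finsupp.mapDomain_apply' (f.support : Set (Om ℤ)) f (le_refl _) hinj hw]
  exact Finsupp.mem_support_iff.1 hw

lemma aa_inj {f g : Om ℤ →₀ ZMod 2} (h : aa f = aa g) : f = g := by
  by_contra hne
  obtain ⟨n, -, w, hw⟩ := exists_ne (f - g) (sub_ne_zero.2 hne)
  apply hw
  have h1 : aa (f - g) = 1 := by
    rw [sub_eq_add_neg, aa_add, aa_neg, h, mul_inv_cancel]
  have h2 := congrArg (fun k : GC => k n (0, w)) h1
  simp only [aa_apply, zero_add] at h2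
  exact congrArg Prod.fst h2

/-- the nonnegative triples -/
def PP (p : Om ℤ) : Prop := 0 ≤ p.1 ∧ 0 ≤ p.2.1 ∧ 0 ≤ p.2.2

/-- lamp configurations supported in a set -/
def lamps (S : Om ℤ → Prop) : Subgroup GC where
  carrier := {g | ∃ f : Om ℤ →₀ ZMod 2, (∀ p ∈ f.support, S p) ∧ aa f = g}
  one_mem' := ⟨0, by simp, aa_zero⟩
  mul_mem' := by
    classical
    rintro _ _ ⟨f, hf, rfl⟩ ⟨g, hg, rfl⟩
    refine ⟨f + g, fun p hp => ?_, aa_add f g⟩
    rcases Finset.mem_union.1 (Finsupp.support_add hp) with h | h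
    · exact hf p h
    · exact hg p h
  inv_mem' := by
    rintro _ ⟨f, hf, rfl⟩
    refine ⟨-f, fun p hp => hf p ?_, aa_neg f⟩
    rwa [Finsupp.support_neg] at hp

/-- the subgroup -/
abbrev HC : Subgroup GC := lamps PP

/-- the two generators -/
def sG : GC := lf fun n => sE (ZMod (n + 1))

/-- the two generators -/
def uG : GC := lf fun n => uE (ZMod (n + 1))

lemma sG_mul : sG * sG = 1 := by
  rw [sG, ← lf_mul, ← lf_one]
  congr 1
  funext n
  exact sE_mul _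

lemma uG_mul : uG * (uG * uG) = 1 := by
  rw [uG, ← lf_mul, ← lf_mul, ← lf_one]
  congr 1
  funext n
  exact uE_mul _

lemma conj_mem {γ : ∀ n : ℕ, Perm (Om (ZMod (n + 1)))} {γZ : Perm (Om ℤ)}
    (h : ∀ n p, pr n (γZ p) = γ n (pr n p)) {S T : Om ℤ → Prop} (hST : ∀ p, S p → T (γZ p))
    {g : GC} (hg : g ∈ lamps S) : lf γ * g * (lf γ)⁻¹ ∈ lamps T := by
  classical
  obtain ⟨f, hf, rfl⟩ := hg
  rw [conj γ γZ h]
  refine ⟨_, fun p hp => ?_, rfl⟩
  obtain ⟨q, hq, rfl⟩ := Finset.mem_image.1 (Finsupp.mapDomain_support hp)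
  exact hST q (hf q hq)

/-- `L` -/
lemma LG_eq : sG * uG = lf (fun n => sE (ZMod (n + 1)) * uE (ZMod (n + 1))) := by
  rw [sG, uG, ← lf_mul]; rfl

/-- `R` -/
lemma RG_eq : sG * (uG * uG) = lf (fun n => sE (ZMod (n + 1)) * (uE (ZMod (n + 1)) * uE (ZMod (n + 1)))) := by
  rw [sG, uG, ← lf_mul, ← lf_mul]; rfl

lemma pr_L (n : ℕ) (p : Om ℤ) : pr n ((sE ℤ * uE ℤ) p) =
    (sE (ZMod (n + 1)) * uE (ZMod (n + 1))) (pr n p) := by
  rw [Perm.mul_apply, Perm.mul_apply, pr_s, pr_u]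

lemma pr_R (n : ℕ) (p : Om ℤ) : pr n ((sE ℤ * (uE ℤ * uE ℤ)) p) =
    (sE (ZMod (n + 1)) * (uE (ZMod (n + 1)) * uE (ZMod (n + 1)))) (pr n p) := by
  rw [Perm.mul_apply, Perm.mul_apply, Perm.mul_apply, Perm.mul_apply, pr_s, pr_u, pr_u]

/-- points outside the cone that both `L` and `R` move into the cone -/
def pt (k : Fin 9) : Om ℤ := ((k : ℤ) + 1, -1, (k : ℤ) + 1)

lemma pt_inj : Function.Injective pt := by
  intro a b h
  simp only [pt, Prod.mk.injEq] at h
  exact Fin.ext (by omega)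

lemma HC_L : ∀ h ∈ HC, (sG * uG) * h * (sG * uG)⁻¹ ∈ HC := by
  intro h hh
  rw [LG_eq]
  refine conj_mem pr_L (fun p hp => ?_) hh
  rw [L_apply]
  obtain ⟨h1, h2, h3⟩ := hp
  refine ⟨h1, ?_, ?_⟩
  · simp only; omega
  · simp only; omega

lemma HC_R : ∀ h ∈ HC, (sG * (uG * uG)) * h * (sG * (uG * uG))⁻¹ ∈ HC := by
  intro h hh
  rw [RG_eq]
  refine conj_mem pr_R (fun p hp => ?_) hh
  rw [R_apply]
  obtain ⟨h1, h2, h3⟩ := hp
  refine ⟨?_, ?_, h3⟩
  · simp only; omega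
  · simp only; omega

/-- the lamp configurations on the nine points -/
noncomputable def ff (e : Fin 9 → ZMod 2) : Om ℤ →₀ ZMod 2 := ∑ k, Finsupp.single (pt k) (e k)

lemma ff_apply (e : Fin 9 → ZMod 2) (k : Fin 9) : ff e (pt k) = e k := by
  classical
  rw [ff, Finsupp.finsetSum_apply, Finset.sum_eq_single k]
  · simp
  · intro b _ hb
    rw [Finsupp.single_apply, if_neg (fun h => hb (pt_inj h))]
  · simp

lemma ff_supp (e : Fin 9 → ZMod 2) : ∀ p ∈ (ff e).support, ∃ k, p = pt k := by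
  classical
  intro p hp
  by_contra hc
  push Not at hc
  rw [Finsupp.mem_support_iff] at hp
  apply hp
  rw [ff, Finsupp.finsetSum_apply]
  refine Finset.sum_eq_zero fun k _ => ?_
  rw [Finsupp.single_apply, if_neg (fun h => hc k h.symm)]

/-- the finite group of lamp configurations on the nine points -/
noncomputable def jE : Multiplicative (Fin 9 → ZMod 2) →* GC where
  toFun e := aa (ff (Multiplicative.toAdd e))
  map_one' := by
    rw [← aa_zero]
    congr 1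
    simp [ff]
  map_mul' a b := by
    rw [← aa_add]
    congr 1
    simp [ff, Finset.sum_add_distrib]

lemma jE_mem (e : Multiplicative (Fin 9 → ZMod 2)) : jE e ∈ lamps (fun p => ∃ k, p = pt k) :=
  ⟨_, ff_supp _, rfl⟩

lemma jE_H (e : Multiplicative (Fin 9 → ZMod 2)) (h : jE e ∈ HC) : e = 1 := by
  obtain ⟨f, hf, he⟩ := h
  have h1 : f = ff (Multiplicative.toAdd e) := aa_inj he
  subst h1
  have : Multiplicative.toAdd e = 0 := by
    funext k
    rw [← ff_apply (Multiplicative.toAdd e) k]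
    by_contra hc
    have := (hf (pt k) (Finsupp.mem_support_iff.2 hc)).2.1
    simp [pt] at this
  exact Multiplicative.toAdd.injective this

lemma jE_L (e : Multiplicative (Fin 9 → ZMod 2)) : (sG * uG) * jE e * (sG * uG)⁻¹ ∈ HC := by
  rw [LG_eq]
  refine conj_mem pr_L ?_ (jE_mem e)
  rintro _ ⟨k, rfl⟩
  rw [L_apply]
  have := Int.natCast_nonneg k.1
  refine ⟨?_, ?_, ?_⟩ <;> simp only [pt] <;> omega

lemma jE_R (e : Multiplicative (Fin 9 → ZMod 2)) :
    (sG * (uG * uG)) * jE e * (sG * (uG * uG))⁻¹ ∈ HC := by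
  rw [RG_eq]
  refine conj_mem pr_R ?_ (jE_mem e)
  rintro _ ⟨k, rfl⟩
  rw [R_apply]
  have := Int.natCast_nonneg k.1
  refine ⟨?_, ?_, ?_⟩ <;> simp only [pt] <;> omega

/-- The concrete monoid is not sofic. -/
theorem not_sofic_conc : ¬ Sofic (Pt true HC) := by
  classical
  refine not_sofic sG_mul uG_mul HC_L HC_R (E := Multiplicative (Fin 9 → ZMod 2)) ?_ jE jE_H jE_L jE_R
  have : Fintype.card (Multiplicative (Fin 9 → ZMod 2)) = Fintype.card (Fin 9 → ZMod 2) :=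
    Fintype.card_congr Multiplicative.toAdd
  rw [this]
  simp [ZMod.card]

/-- the core of the subgroup is trivial -/
lemma core_trivial (g : GC) (h : ∀ x : GC, x * g * x⁻¹ ∈ HC) : g = 1 := by
  classical
  obtain ⟨f, -, hf⟩ := h 1
  rw [one_mul, inv_one, mul_one] at hf
  by_cases h0 : f = 0
  · rw [← hf, h0, aa_zero]
  exfalso
  obtain ⟨n, hn, w, hw⟩ := exists_ne f h0
  set v : Om (ZMod (n + 1)) := (w.1 + 1, w.2) with hv
  have hvw : v ≠ w := by
    intro h
    have h1 : w.1 + 1 = w.1 := congrArg Prod.fst h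
    have h2 : (1 : ZMod (n + 1)) = 0 := by
      have : w.1 + 1 = w.1 + 0 := by rw [h1, add_zero]
      exact add_left_cancel this
    have : Nontrivial (ZMod (n + 1)) := ZMod.nontrivial_iff.2 (by omega)
    exact one_ne_zero h2
  let x : GC := Pi.mulSingle n (Equiv.swap ((0 : ZMod 2), w) ((0 : ZMod 2), v))
  obtain ⟨f', -, hf'⟩ := h x
  have h1 := congrArg (fun k : GC => (k n (0, v)).2) hf'
  have hx : x n = Equiv.swap ((0 : ZMod 2), w) ((0 : ZMod 2), v) := Pi.mulSingle_eq_same _ _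
  simp only [aa_apply, Pi.mul_apply, Pi.inv_apply, Perm.mul_apply, hx, Equiv.swap_inv,
    Equiv.swap_apply_right] at h1
  rw [← hf, aa_apply] at h1
  simp only [zero_add] at h1
  rw [Equiv.swap_apply_of_ne_of_ne] at h1
  · exact hvw h1
  · intro h
    exact hw (congrArg Prod.fst h)
  · intro h
    exact hw (congrArg Prod.fst h)

/-- local finiteness of the subgroup -/
lemma loc_fin (S : Finset GC) (hS : ∀ g ∈ S, g ∈ HC) :
    ∃ H₀ : Subgroup GC, H₀ ≤ HC ∧ Finite H₀ ∧ ∀ g ∈ S, g ∈ H₀ := by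
  classical
  choose! f hf hfa using hS
  let F : Finset (Om ℤ) := S.biUnion fun g => (f g).support
  have hF : ∀ p ∈ F, PP p := by
    intro p hp
    obtain ⟨g, hg, hp⟩ := Finset.mem_biUnion.1 hp
    exact hf g hg p hp
  refine ⟨lamps fun p => p ∈ F, ?_, ?_, ?_⟩
  · rintro _ ⟨k, hk, rfl⟩
    exact ⟨k, fun p hp => hF p (hk p hp), rfl⟩
  · have hex : ∀ g : lamps (fun p => p ∈ F), ∃ k : Om ℤ →₀ ZMod 2, (∀ p ∈ k.support, p ∈ F) ∧
        aa k = g.1 := fun g => g.2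
    choose k hk hka using hex
    refine Finite.of_injective (fun g : lamps (fun p => p ∈ F) => fun p : F => k g p.1) ?_
    intro g g' h
    refine Subtype.ext ?_
    rw [← hka g, ← hka g']
    congr 1
    ext p
    by_cases hp : p ∈ F
    · exact congrFun h ⟨p, hp⟩
    · have e1 : k g p = 0 := by
        by_contra hc; exact hp (hk g p (Finsupp.mem_support_iff.2 hc))
      have e2 : k g' p = 0 := by
        by_contra hc; exact hp (hk g' p (Finsupp.mem_support_iff.2 hc))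
      rw [e1, e2]
  · intro g hg
    exact ⟨f g, fun p hp => Finset.mem_biUnion.2 ⟨g, hg, hp⟩, hfa g hg⟩

lemma rf_GC : RF GC := RF.pi

end Pool.Agent.X232.SF
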