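import Pool.Agent.X232.SF.Fib

/-! Sofic monoids, and residually finite groups. -/

set_option autoImplicit false

namespace Pool.Agent.X232.SF

/-- The monoid `M` is (left) sofic in the sense of Ceccherini-Silberstein and Coornaert: for every
finite `K ⊆ M` and every `ε > 0` there are a finite nonempty set `X` and a map
`M × X → X`, `(m, x) ↦ f m x`, with `f 1 x = x`, with `f s (f t x) = f (s t) x` for at least
`(1 - ε) |X|` points `x` for all `s, t ∈ K`, and with `f s x ≠ f t x` for at least `(1 - ε) |X|`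
points `x` for all `s ≠ t` in `K`. -/
def Sofic (M : Type) [Monoid M] : Prop :=
  ∀ (K : Finset M) (ε : ℝ), 0 < ε → ∃ (X : Type) (_ : Finite X) (_ : Nonempty X) (f : M → X → X),
    (∀ x, f 1 x = x) ∧
    (∀ s ∈ K, ∀ t ∈ K, (1 - ε) * (Nat.card X : ℝ) ≤ Nat.card {x // f s (f t x) = f (s * t) x}) ∧
    (∀ s ∈ K, ∀ t ∈ K, s ≠ t → (1 - ε) * (Nat.card X : ℝ) ≤ Nat.card {x // f s x ≠ f t x})

/-- The `𝒥`-class of `1` is the group of units. -/
def JOneIsGroup (M : Type) [Monoid M] : Prop :=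
  ∀ m : M, (∀ y : M, ∃ a b : M, a * m * b = y) ↔ IsUnit m

/-- good points -/
lemma sofic_good {M : Type} [Monoid M] (h : Sofic M) (K : Finset M) (N : ℕ) :
    ∃ (X : Type) (_ : Fintype X) (_ : DecidableEq X) (f : M → X → X) (B : Finset X),
      N * B.card < Fintype.card X ∧ (∀ x, f 1 x = x) ∧
      ∀ x, x ∉ B → ∀ s ∈ K, ∀ t ∈ K, f s (f t x) = f (s * t) x ∧ (s ≠ t → f s x ≠ f t x) := by
  classical
  set c : ℕ := 2 * (K.card * K.card) with hc
  have hε : (0 : ℝ) < 1 / ((N + 1) * (c + 1)) := by positivity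
  obtain ⟨X, hX, hX0, f, h1, h2, h3⟩ := h K _ hε
  have : Fintype X := Fintype.ofFinite X
  refine ⟨X, this, Classical.decEq X, f, (K ×ˢ K).biUnion (fun p =>
    (Finset.univ.filter fun x => ¬ f p.1 (f p.2 x) = f (p.1 * p.2) x) ∪
      (Finset.univ.filter fun x => ¬ (p.1 ≠ p.2 → f p.1 x ≠ f p.2 x))), ?_, h1, ?_⟩
  · have hn : 0 < Fintype.card X := Fintype.card_pos
    have key : ∀ q : X → Prop, (1 - 1 / ((N + 1) * (c + 1)) : ℝ) * (Nat.card X : ℝ) ≤
        Nat.card {x // q x} → ((Finset.univ.filter fun x => ¬ q x).card : ℝ) ≤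
          1 / ((N + 1) * (c + 1)) * Fintype.card X := by
      intro q hq
      have e1 : (Finset.univ.filter fun x => q x).card + (Finset.univ.filter fun x => ¬ q x).card =
          Fintype.card X := by
        rw [Finset.card_filter_add_card_filter_not]; rfl
      have e2 : Nat.card {x // q x} = (Finset.univ.filter fun x => q x).card := by
        rw [Nat.card_eq_fintype_card, Fintype.card_subtype]
      rw [Nat.card_eq_fintype_card, e2] at hq
      have e3 : ((Finset.univ.filter fun x => q x).card : ℝ) +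
        ((Finset.univ.filter fun x => ¬ q x).card : ℝ) = Fintype.card X := by exact_mod_cast e1
      nlinarith
    have hB : ((((K ×ˢ K).biUnion (fun p =>
      (Finset.univ.filter fun x => ¬ f p.1 (f p.2 x) = f (p.1 * p.2) x) ∪
      (Finset.univ.filter fun x => ¬ (p.1 ≠ p.2 → f p.1 x ≠ f p.2 x))) : Finset X).card : ℕ) : ℝ) ≤
        c * (1 / ((N + 1) * (c + 1)) * Fintype.card X) := by
      have k1 := Finset.card_biUnion_le (s := K ×ˢ K) (t := fun p =>
        (Finset.univ.filter fun x => ¬ f p.1 (f p.2 x) = f (p.1 * p.2) x) ∪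
        (Finset.univ.filter fun x => ¬ (p.1 ≠ p.2 → f p.1 x ≠ f p.2 x)))
      have k2 : ∀ p ∈ K ×ˢ K, (((Finset.univ.filter fun x => ¬ f p.1 (f p.2 x) = f (p.1 * p.2) x) ∪
        (Finset.univ.filter fun x => ¬ (p.1 ≠ p.2 → f p.1 x ≠ f p.2 x)) : Finset X).card : ℝ) ≤
          2 * (1 / ((N + 1) * (c + 1)) * Fintype.card X) := by
        rintro ⟨s, t⟩ hst
        obtain ⟨hs, ht⟩ := Finset.mem_product.1 hst
        have a1 := key (fun x => f s (f t x) = f (s * t) x) (h2 s hs t ht)
        have a2 : ((Finset.univ.filter fun x => ¬ (s ≠ t → f s x ≠ f t x)).card : ℝ) ≤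
            1 / ((N + 1) * (c + 1)) * Fintype.card X := by
          by_cases hst : s = t
          · subst hst
            have : (Finset.univ.filter fun x => ¬ (s ≠ s → f s x ≠ f s x)) = ∅ := by
              rw [Finset.filter_eq_empty_iff]; intro x _ h; exact h (fun h => absurd rfl h)
            rw [this]; simp; positivity
          · have a3 := key (fun x => f s x ≠ f t x) (h3 s hs t ht hst)
            refine le_trans (le_of_eq ?_) a3
            exact congrArg (fun k : ℕ => (k : ℝ)) (congrArg Finset.card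
              (Finset.ext fun x => by simp [hst]))
        have a3 := Finset.card_union_le (Finset.univ.filter fun x => ¬ f s (f t x) = f (s * t) x)
          (Finset.univ.filter fun x => ¬ (s ≠ t → f s x ≠ f t x))
        have a4 : (((Finset.univ.filter fun x => ¬ f s (f t x) = f (s * t) x) ∪
          (Finset.univ.filter fun x => ¬ (s ≠ t → f s x ≠ f t x)) : Finset X).card : ℝ) ≤
          ((Finset.univ.filter fun x => ¬ f s (f t x) = f (s * t) x).card : ℝ) +
          ((Finset.univ.filter fun x => ¬ (s ≠ t → f s x ≠ f t x)).card : ℝ) := by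
          exact_mod_cast a3
        simp only
        linarith
      have k3 : ((∑ p ∈ K ×ˢ K, ((Finset.univ.filter fun x => ¬ f p.1 (f p.2 x) = f (p.1 * p.2) x) ∪
        (Finset.univ.filter fun x => ¬ (p.1 ≠ p.2 → f p.1 x ≠ f p.2 x)) : Finset X).card : ℕ) : ℝ) ≤
          ∑ p ∈ K ×ˢ K, 2 * (1 / ((N + 1) * (c + 1)) * Fintype.card X : ℝ) := by
        push_cast
        exact Finset.sum_le_sum k2
      rw [Finset.sum_const, Finset.card_product, nsmul_eq_mul] at k3
      have k4 : (((K ×ˢ K).biUnion (fun p =>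
        (Finset.univ.filter fun x => ¬ f p.1 (f p.2 x) = f (p.1 * p.2) x) ∪
        (Finset.univ.filter fun x => ¬ (p.1 ≠ p.2 → f p.1 x ≠ f p.2 x))) : Finset X).card : ℝ) ≤
        ((∑ p ∈ K ×ˢ K, ((Finset.univ.filter fun x => ¬ f p.1 (f p.2 x) = f (p.1 * p.2) x) ∪
        (Finset.univ.filter fun x => ¬ (p.1 ≠ p.2 → f p.1 x ≠ f p.2 x)) : Finset X).card : ℕ) : ℝ) := by
        exact_mod_cast k1
      refine k4.trans (k3.trans (le_of_eq ?_))
      rw [hc]; push_cast; ring
    have hn' : (0 : ℝ) < Fintype.card X := by exact_mod_cast hn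
    have : (N : ℝ) * (c * (1 / ((N + 1) * (c + 1)) * Fintype.card X)) < Fintype.card X := by
      have e : (N : ℝ) * (c * (1 / ((N + 1) * (c + 1)) * Fintype.card X)) =
        (N / (N + 1)) * (c / (c + 1)) * Fintype.card X := by field_simp
      rw [e]
      have f1 : (N : ℝ) / (N + 1) < 1 := by rw [div_lt_one (by positivity)]; linarith
      have f2 : (c : ℝ) / (c + 1) < 1 := by rw [div_lt_one (by positivity)]; linarith
      have f3 : (0 : ℝ) ≤ c / (c + 1) := by positivity
      have f4 : (0 : ℝ) ≤ (N : ℝ) / (N + 1) := by positivity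
      have f5 : (N : ℝ) / (N + 1) * (c / (c + 1)) < 1 := by nlinarith
      nlinarith
    have h4 : (N : ℝ) * (((K ×ˢ K).biUnion (fun p =>
        (Finset.univ.filter fun x => ¬ f p.1 (f p.2 x) = f (p.1 * p.2) x) ∪
        (Finset.univ.filter fun x => ¬ (p.1 ≠ p.2 → f p.1 x ≠ f p.2 x))) : Finset X).card : ℝ) <
        Fintype.card X := lt_of_le_of_lt (mul_le_mul_of_nonneg_left hB (by positivity)) this
    exact_mod_cast h4
  · intro x hx s hs t ht
    simp only [Finset.mem_biUnion, Finset.mem_product, Finset.mem_union, Finset.mem_filter,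
      Finset.mem_univ, true_and, not_exists, not_and, not_or] at hx
    have := hx (s, t) ⟨hs, ht⟩
    exact ⟨not_not.1 this.1, not_not.1 this.2⟩

/-! ### Residually finite groups -/

/-- A residually finite group. -/
def RF (G : Type) [Group G] : Prop :=
  ∀ g : G, g ≠ 1 → ∃ (Q : Type) (_ : Group Q) (_ : Finite Q) (q : G →* Q), q g ≠ 1

lemma RF.finset {G : Type} [Group G] (h : RF G) (S : Finset G) (hS : (1 : G) ∉ S) :
    ∃ (Q : Type) (_ : Group Q) (_ : Finite Q) (q : G →* Q), ∀ g ∈ S, q g ≠ 1 := by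
  classical
  have h' : ∀ g : S, ∃ (Q : Type) (_ : Group Q) (_ : Finite Q) (q : G →* Q), q g ≠ 1 :=
    fun g => h g (fun hg => hS (hg ▸ g.2))
  choose Q hQ hf q hq using h'
  refine ⟨∀ g : S, Q g, inferInstance, inferInstance, MonoidHom.pi q, ?_⟩
  intro g hg hc
  exact hq ⟨g, hg⟩ (congrFun hc ⟨g, hg⟩)

lemma RF.finset2 {G : Type} [Group G] (h : RF G) (S : Finset G) :
    ∃ (Q : Type) (_ : Group Q) (_ : Finite Q) (q : G →* Q), ∀ g ∈ S, ∀ g' ∈ S, g ≠ g' → q g ≠ q g' := by
  classical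
  obtain ⟨Q, hQ, hf, q, hq⟩ := h.finset (((S ×ˢ S).image fun p => p.1 * p.2⁻¹).erase 1) (by simp)
  refine ⟨Q, hQ, hf, q, fun g hg g' hg' hne he => ?_⟩
  refine hq (g * g'⁻¹) ?_ (by rw [map_mul, map_inv, he, mul_inv_cancel])
  rw [Finset.mem_erase]
  exact ⟨fun h => hne (mul_inv_eq_one.1 h), Finset.mem_image.2 ⟨(g, g'), by simp [hg, hg'], rfl⟩⟩

lemma RF.prod {G H : Type} [Group G] [Group H] (hG : RF G) (hH : RF H) : RF (G × H) := by
  rintro ⟨g, h⟩ hne
  by_cases hg : g = 1
  · have hh : h ≠ 1 := fun hh => hne (by rw [hg, hh]; rfl)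
    obtain ⟨Q, i1, i2, q, hq⟩ := hH h hh
    exact ⟨Q, i1, i2, q.comp (MonoidHom.snd G H), hq⟩
  · obtain ⟨Q, i1, i2, q, hq⟩ := hG g hg
    exact ⟨Q, i1, i2, q.comp (MonoidHom.fst G H), hq⟩

lemma RF.pi {ι : Type} {G : ι → Type} [∀ i, Group (G i)] [∀ i, Finite (G i)] : RF (∀ i, G i) := by
  intro g hg
  obtain ⟨i, hi⟩ := Function.ne_iff.1 hg
  exact ⟨G i, inferInstance, inferInstance, Pi.evalMonoidHom G i, hi⟩

lemma RF.int : RF (Multiplicative ℤ) := by
  intro g hg
  set z : ℤ := Multiplicative.toAdd g with hz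
  have hz0 : z ≠ 0 := fun h => hg (by
    have : g = Multiplicative.ofAdd z := rfl
    rw [this, h]; rfl)
  refine ⟨Multiplicative (ZMod (z.natAbs + 1)), inferInstance,
    inferInstanceAs (Finite (ZMod (z.natAbs + 1))),
    AddMonoidHom.toMultiplicative (Int.castAddHom (ZMod (z.natAbs + 1))), ?_⟩
  intro h
  have h1 : ((z : ℤ) : ZMod (z.natAbs + 1)) = 0 := h
  rw [ZMod.intCast_zmod_eq_zero_iff_dvd] at h1
  have h2 := Int.natAbs_dvd_natAbs.2 h1
  have h3 := Nat.le_of_dvd (Int.natAbs_pos.2 hz0) h2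
  have h4 : ((z.natAbs + 1 : ℕ) : ℤ).natAbs = z.natAbs + 1 := Int.natAbs_natCast _
  omega

/-- exact finite models suffice -/
lemma sofic_of_exact {M : Type} [Monoid M]
    (h : ∀ K : Finset M, ∃ (X : Type) (_ : Finite X) (_ : Nonempty X) (f : M → X → X),
      (∀ x, f 1 x = x) ∧ (∀ s t x, f s (f t x) = f (s * t) x) ∧
      ∀ s ∈ K, ∀ t ∈ K, s ≠ t → ∀ x, f s x ≠ f t x) : Sofic M := by
  intro K ε hε
  obtain ⟨X, i1, i2, f, h1, h2, h3⟩ := h K
  have hle : (1 - ε) * (Nat.card X : ℝ) ≤ Nat.card X := by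
    have : (0 : ℝ) ≤ Nat.card X := Nat.cast_nonneg _
    nlinarith
  refine ⟨X, i1, i2, f, h1, fun s _ t _ => ?_, fun s hs t ht hst => ?_⟩
  · have : Nat.card {x // f s (f t x) = f (s * t) x} = Nat.card X :=
      Nat.card_congr (Equiv.subtypeUnivEquiv (h2 s t))
    rw [this]; exact hle
  · have : Nat.card {x // f s x ≠ f t x} = Nat.card X :=
      Nat.card_congr (Equiv.subtypeUnivEquiv (h3 s hs t ht hst))
    rw [this]; exact hle

lemma RF.sofic {G : Type} [Group G] (h : RF G) : Sofic G := by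
  refine sofic_of_exact fun K => ?_
  obtain ⟨Q, i1, i2, q, hq⟩ := h.finset2 K
  refine ⟨Q, i2, ⟨1⟩, fun g x => q g * x, fun x => by simp, fun s t x => by simp [mul_assoc], ?_⟩
  intro s hs t ht hst x hx
  exact hq s hs t ht hst (mul_right_cancel hx)

end Pool.Agent.X232.SF
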