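import Pool.Agent.X232.SF.Key

/-! Sizes of fibres grow. -/

set_option autoImplicit false

namespace Pool.Agent.X232.SF

open Finset

variable {X : Type} [Fintype X] [DecidableEq X]

/-- the size of the fibre of `m` through `x` -/
def cc (m : X → X) (x : X) : ℕ := (univ.filter fun y => m y = m x).card

lemma cc_pos (m : X → X) (x : X) : 0 < cc m x :=
  card_pos.2 ⟨x, by simp⟩

lemma card_V (m : X → X) (B : Finset X) :
    (univ.filter fun x => 2 * (univ.filter fun y => m y = m x ∧ y ∉ B).card < cc m x).card ≤
      2 * B.card := by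
  set V := univ.filter fun x => 2 * (univ.filter fun y => m y = m x ∧ y ∉ B).card < cc m x with hV
  have h1 : V.card = ∑ p ∈ (univ : Finset X), (V.filter fun x => m x = p).card :=
    card_eq_sum_card_fiberwise (fun x _ => by simp)
  have h2 : B.card = ∑ p ∈ (univ : Finset X), (B.filter fun x => m x = p).card :=
    card_eq_sum_card_fiberwise (fun x _ => by simp)
  rw [h1, h2, mul_sum]
  refine sum_le_sum fun p _ => ?_
  by_cases hp : ∃ x ∈ V, m x = p
  · obtain ⟨x, hx, rfl⟩ := hp
    rw [hV, mem_filter] at hx
    have e1 : (V.filter fun y => m y = m x).card ≤ cc m x :=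
      card_le_card fun y hy => by
        simp only [mem_filter, mem_univ, true_and] at hy ⊢
        exact hy.2
    have e2 : cc m x = (univ.filter fun y => m y = m x ∧ y ∉ B).card +
        (B.filter fun y => m y = m x).card := by
      rw [cc, ← card_union_of_disjoint]
      · congr 1
        ext y
        simp only [mem_filter, mem_univ, true_and, mem_union]
        tauto
      · rw [disjoint_left]
        intro y hy hy'
        simp only [mem_filter, mem_univ, true_and] at hy hy'
        exact hy.2 hy'.1
    omega
  · push Not at hp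
    have : (V.filter fun x => m x = p) = ∅ := by
      rw [filter_eq_empty_iff]
      intro x hx; exact hp x hx
    rw [this]; simp

/-- Growth of fibres. -/
theorem fib {E : Type} [Group E] [Fintype E] (m l L : X → X) (e : E → X → X) (B : Finset X)
    (h1 : ∀ x, x ∉ B → m (L x) = l (m x))
    (h2 : ∀ x, x ∉ B → ∀ i, m (L (e i x)) = m (L x))
    (h3 : ∀ x, x ∉ B → ∀ i j, i ≠ j → m (e i x) ≠ m (e j x))
    (h4 : ∀ x, x ∉ B → ∀ i j, e i (e j x) = e (i * j) x) (h4' : ∀ x, e 1 x = x)
    (h5 : Set.InjOn L {x | x ∉ B}) :
    Fintype.card E * (univ.filter fun x => cc m (L x) ≤ cc m x).card ≤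
      2 * Fintype.card X + (3 * Fintype.card E + 4 * Fintype.card E ^ 2) * B.card := by
  classical
  have ie : ∀ i, Set.InjOn (e i) {x | x ∉ B} := by
    intro i x hx y hy h
    rw [← h4' x, ← h4' y, ← inv_mul_cancel i, ← h4 x hx, ← h4 y hy, h]
  let Vc : Finset X := univ.filter fun x =>
    2 * (univ.filter fun y => m y = m x ∧ y ∉ B).card < cc m x
  have hVc : Vc.card ≤ 2 * B.card := card_V m B
  let V' : Finset X := univ.filter fun x => x ∉ B ∧ ∀ i, e i x ∉ B ∪ Vc
  have hV' : (V'ᶜ).card ≤ B.card + Fintype.card E * (4 * B.card) := by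
    have hs : V'ᶜ ⊆ B ∪ (univ : Finset E).biUnion fun i => univ.filter fun x => e i x ∈ B ∪ Vc := by
      intro x hx
      simp only [V', mem_compl, mem_filter, mem_univ, true_and, not_and, not_forall] at hx
      rw [mem_union]
      by_cases hB : x ∈ B
      · exact Or.inl hB
      · obtain ⟨i, hi⟩ := hx hB
        refine Or.inr (mem_biUnion.2 ⟨i, mem_univ _, ?_⟩)
        rw [mem_filter]
        exact ⟨mem_univ _, not_not.1 hi⟩
    refine (card_le_card hs).trans ((card_union_le _ _).trans (Nat.add_le_add_left ?_ _))
    refine card_biUnion_le.trans ?_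
    refine (sum_le_card_nsmul _ _ (4 * B.card) fun i _ => ?_).trans (by simp)
    have := card_preim_le (ie i) (B ∪ Vc)
    have := card_union_le B Vc
    omega
  -- the main inequality on `V'`
  have hmain : ∀ x ∈ V', ∑ i, cc m (e i x) ≤ 2 * cc m (L x) := by
    intro x hx
    simp only [V', mem_filter, mem_univ, true_and, mem_union, not_or] at hx
    obtain ⟨hxB, hx⟩ := hx
    have k1 : ∀ i, cc m (e i x) ≤ 2 * (univ.filter fun y => m y = m (e i x) ∧ y ∉ B).card := by
      intro i
      have := (hx i).2
      simp only [Vc, mem_filter, mem_univ, true_and, not_lt] at this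
      exact this
    have k2 : ∑ i, (univ.filter fun y => m y = m (e i x) ∧ y ∉ B).card ≤ cc m (L x) := by
      rw [← card_biUnion]
      · refine card_le_card_of_injOn L (fun y hy => ?_) (fun y hy z hz h => ?_)
        · simp only [coe_biUnion, coe_univ, Set.mem_iUnion, mem_coe, mem_filter,
            mem_univ, true_and] at hy
          obtain ⟨i, -, hy, hyB⟩ := hy
          simp only [coe_filter, mem_univ, true_and, Set.mem_ofPred_eq]
          rw [h1 y hyB, hy, ← h1 _ (hx i).1, h2 x hxB]
        · simp only [coe_biUnion, coe_univ, Set.mem_iUnion, mem_coe, mem_filter,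
            mem_univ, true_and] at hy hz
          obtain ⟨i, -, -, hyB⟩ := hy
          obtain ⟨j, -, -, hzB⟩ := hz
          exact h5 hyB hzB h
      · intro i _ j _ hij
        rw [Function.onFun, disjoint_left]
        intro y hy hy'
        simp only [mem_filter, mem_univ, true_and] at hy hy'
        exact h3 x hxB i j hij (hy.1.symm.trans hy'.1)
    calc ∑ i, cc m (e i x) ≤ ∑ i, 2 * (univ.filter fun y => m y = m (e i x) ∧ y ∉ B).card :=
          sum_le_sum fun i _ => k1 i
      _ = 2 * ∑ i, (univ.filter fun y => m y = m (e i x) ∧ y ∉ B).card := by rw [mul_sum]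
      _ ≤ _ := Nat.mul_le_mul_left _ k2
  let Z : Finset X := V'.filter fun x => cc m (L x) ≤ cc m x
  have hZ : ∀ x, x ∉ B → (univ.filter fun i : E => e i x ∈ Z).card ≤ 2 := by
    intro x hx
    set S := ∑ i, cc m (e i x) with hS
    have hSpos : 0 < S := by
      refine sum_pos (fun i _ => cc_pos _ _) ⟨1, mem_univ _⟩
    have k : ∀ i ∈ (univ.filter fun i : E => e i x ∈ Z), S ≤ 2 * cc m (e i x) := by
      intro i hi
      simp only [mem_filter, mem_univ, true_and, Z] at hi
      have e1 := hmain _ hi.1
      have e2 : ∑ j, cc m (e j (e i x)) = S := by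
        rw [hS, ← Equiv.sum_comp (Equiv.mulRight i) (fun j => cc m (e j x))]
        refine sum_congr rfl fun j _ => ?_
        rw [h4 x hx]; rfl
      rw [e2] at e1
      have := hi.2
      omega
    have k2 := card_nsmul_le_sum _ (fun i => 2 * cc m (e i x)) S k
    have k3 : ∑ i ∈ (univ.filter fun i : E => e i x ∈ Z), 2 * cc m (e i x) ≤ 2 * S := by
      rw [← mul_sum]
      exact Nat.mul_le_mul_left _ (sum_le_sum_of_subset (filter_subset _ _))
    rw [smul_eq_mul] at k2
    by_contra hc
    push Not at hc
    nlinarith
  have hZ2 : Fintype.card E * Z.card ≤ 2 * Fintype.card X + 2 * Fintype.card E * B.card := by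
    have k1 : ∀ i : E, Z.card ≤ (univ.filter fun x => e i x ∈ Z).card + B.card := fun i =>
      card_preim_ge (ie i) Z
    have k2 : Fintype.card E * Z.card ≤ ∑ i : E, ((univ.filter fun x => e i x ∈ Z).card + B.card) := by
      have := card_nsmul_le_sum (univ : Finset E)
        (fun i => (univ.filter fun x => e i x ∈ Z).card + B.card) Z.card (fun i _ => k1 i)
      simpa using this
    have k3 : ∑ i : E, (univ.filter fun x => e i x ∈ Z).card =
        ∑ x : X, (univ.filter fun i : E => e i x ∈ Z).card := by
      simp only [card_filter]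
      exact sum_comm
    have k4 : ∑ x : X, (univ.filter fun i : E => e i x ∈ Z).card ≤
        ∑ x : X, (2 + if x ∈ B then Fintype.card E else 0) := by
      refine sum_le_sum fun x _ => ?_
      by_cases hx : x ∈ B
      · rw [if_pos hx]
        have := card_le_univ (univ.filter fun i : E => e i x ∈ Z)
        omega
      · rw [if_neg hx]; exact hZ x hx
    have k5 : ∑ x : X, (2 + if x ∈ B then Fintype.card E else 0) =
        2 * Fintype.card X + B.card * Fintype.card E := by
      rw [sum_add_distrib]
      simp [mul_comm]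
    rw [sum_add_distrib, k3] at k2
    have k6 : ∑ i : E, B.card = Fintype.card E * B.card := by simp
    rw [k6] at k2
    nlinarith
  have hfin : (univ.filter fun x => cc m (L x) ≤ cc m x) ⊆ V'ᶜ ∪ Z := by
    intro x hx
    simp only [mem_filter, mem_univ, true_and] at hx
    rw [mem_union]
    by_cases h : x ∈ V'
    · exact Or.inr (mem_filter.2 ⟨h, hx⟩)
    · exact Or.inl (mem_compl.2 h)
  have hc := (card_le_card hfin).trans (card_union_le _ _)
  have : Fintype.card E * (univ.filter fun x => cc m (L x) ≤ cc m x).card ≤
      Fintype.card E * ((V'ᶜ).card + Z.card) := Nat.mul_le_mul_left _ hc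
  nlinarith [Nat.mul_le_mul_left (Fintype.card E) hV']

end Pool.Agent.X232.SF
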