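import Pool.Agent.X232.SF.Conc

/-! Orbit quotients, and the sofic companion monoid. -/

set_option autoImplicit false

namespace Pool.Agent.X232.SF

open QuotientGroup

/-- For `O = m U(M)`, the orbit of `m` under right translation by the group of units, the pointwise
stabiliser `N_O` of `O`. -/
def orbStab {M : Type} [Monoid M] (m : M) : Subgroup Mˣ where
  carrier := {g | ∀ h : Mˣ, m * h * g = m * h}
  one_mem' h := by simp
  mul_mem' := by
    intro a b ha hb h
    rw [Units.val_mul, ← mul_assoc, ha, hb]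
  inv_mem' := by
    intro a ha h
    have := ha h
    calc m * h * ((a⁻¹ : Mˣ) : M) = m * h * a * ((a⁻¹ : Mˣ) : M) := by rw [this]
      _ = m * h := by rw [mul_assoc (m * h), Units.mul_inv, mul_one]

instance orbStab_normal {M : Type} [Monoid M] (m : M) : (orbStab m).Normal := by
  refine ⟨fun n hn g h => ?_⟩
  have h1 := hn (h * g)
  rw [Units.val_mul, ← mul_assoc] at h1
  rw [Units.val_mul, Units.val_mul, ← mul_assoc, ← mul_assoc, h1, mul_assoc (m * h), Units.mul_inv,
    mul_one]

lemma RF_quot {A : Type} [Group A] (hA : RF A) (N : Subgroup A) [N.Normal] (hN : N = ⊥ ∨ N = ⊤) :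
    RF (A ⧸ N) := by
  rcases hN with rfl | rfl
  · exact RF.of_injective hA (QuotientGroup.quotientBot (G := A)).toMonoidHom
      (QuotientGroup.quotientBot (G := A)).injective
  · intro q hq
    exfalso
    apply hq
    obtain ⟨a, rfl⟩ := QuotientGroup.mk_surjective q
    rw [QuotientGroup.eq_one_iff]
    trivial

lemma rf_units (b : Bool) : RF (Pt b HC)ˣ := RF.of_injective rf_GC unitsHom unitsHom_inj

theorem orb_sofic (m : Pt true HC) : Sofic ((Pt true HC)ˣ ⧸ orbStab m) := by
  refine (RF_quot (rf_units true) (orbStab m) ?_).sofic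
  rcases m with ⟨w, g⟩ | x | _
  · left
    rw [eq_bot_iff]
    intro u hu
    have h1 := hu 1
    rw [Units.val_one, mul_one, units_eq u, tt, Pt.t.injEq] at h1
    have h2 : unitsHom u = 1 := mul_eq_left.1 h1.2
    rw [Subgroup.mem_bot]
    exact unitsHom_inj (by rw [h2, map_one])
  · left
    rw [eq_bot_iff]
    intro u hu
    rw [Subgroup.mem_bot]
    refine unitsHom_inj ?_
    rw [map_one]
    refine core_trivial _ fun y => ?_
    induction x using Quotient.inductionOn with
    | h a =>
      obtain ⟨v, hv⟩ := unitsHom_surj (b := true) (H := HC) (a⁻¹ * y)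
      have h1 := hu v
      rw [units_eq u, units_eq v, it, it, Pt.i.injEq, hv] at h1
      have h2 : (Quotient.mk _ (a * (a⁻¹ * y) * unitsHom u) : RC HC) =
        Quotient.mk _ (a * (a⁻¹ * y)) := h1
      rw [Quotient.eq, rightRel_apply, mul_inv_cancel_left] at h2
      have h3 := HC.inv_mem h2
      simpa [mul_assoc] using h3
  · right
    rw [eq_top_iff]
    intro u _ v
    rw [units_eq u, units_eq v, zt, zt]

variable {G : Type} [Group G]

/-- the first component -/
def wp {b : Bool} {H : Subgroup G} : Pt b H → G × Multiplicative ℤ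
  | .t w _ => w.1
  | _ => 1

/-- the representative of a coset -/
noncomputable def rp {b : Bool} {H : Subgroup G} : Pt b H → G
  | .i x => Quotient.out x
  | _ => 1

lemma mul_i_false {H : Subgroup G} (s : Pt false H) (c : RC H) : s * Pt.i c = Pt.i c := by
  rcases s with ⟨w, g⟩ | x | _ <;> rfl

lemma mul_z_false {H : Subgroup G} (s : Pt false H) : s * Pt.z = Pt.z := by
  rcases s with ⟨w, g⟩ | x | _ <;> rfl

/-- the companion monoid is sofic -/
theorem sofic_false {H : Subgroup G} (hG : RF G)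
    (hH : ∀ S : Finset G, (∀ g ∈ S, g ∈ H) →
      ∃ H₀ : Subgroup G, H₀ ≤ H ∧ Finite H₀ ∧ ∀ g ∈ S, g ∈ H₀) : Sofic (Pt false H) := by
  classical
  intro K ε hε
  let dl : Pt false H → G → G := fun a g => match a with
    | .i x => Quotient.out (ra x g) * (Quotient.out x * g)⁻¹
    | _ => 1
  have hdl : ∀ a g, dl a g ∈ H := by
    rintro (⟨w, g'⟩ | x | _) g
    · exact one_mem _
    · show Quotient.out (ra x g) * (Quotient.out x * g)⁻¹ ∈ H
      rw [← rightRel_apply, ← Quotient.eq, Quotient.out_eq]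
      conv_rhs => rw [← Quotient.out_eq x]
      rfl
    · exact one_mem _
  obtain ⟨H₀, hle, hfin, hmem⟩ := hH ((K ×ˢ K).image fun p => dl p.1 (gp p.2)) (by
    intro g hg
    obtain ⟨p, -, rfl⟩ := Finset.mem_image.1 hg
    exact hdl _ _)
  have hmem' : ∀ a ∈ K, ∀ c ∈ K, dl a (gp c) ∈ H₀ := fun a ha c hc =>
    hmem _ (Finset.mem_image.2 ⟨(a, c), Finset.mem_product.2 ⟨ha, hc⟩, rfl⟩)
  let _ : Fintype H₀ := Fintype.ofFinite _
  obtain ⟨Q, i1, i2, q, hq⟩ := hG.finset2 ((K.image gp) ∪
    (((Finset.univ : Finset H₀) ×ˢ K).image fun p => p.1.1 * rp p.2))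
  obtain ⟨Q₂, i3, i4, q₂, hq₂⟩ := (hG.prod RF.int).finset2 (K.image wp)
  have hqg : ∀ a ∈ K, ∀ c ∈ K, gp a ≠ gp c → q (gp a) ≠ q (gp c) := fun a ha c hc =>
    hq _ (Finset.mem_union_left _ (Finset.mem_image_of_mem _ ha)) _
      (Finset.mem_union_left _ (Finset.mem_image_of_mem _ hc))
  have hqw : ∀ a ∈ K, ∀ c ∈ K, wp a ≠ wp c → q₂ (wp a) ≠ q₂ (wp c) := fun a ha c hc =>
    hq₂ _ (Finset.mem_image_of_mem _ ha) _ (Finset.mem_image_of_mem _ hc)
  have hqr : ∀ a ∈ K, ∀ c ∈ K, ∀ h ∈ H₀, rp a ≠ h * rp c → q (rp a) ≠ q h * q (rp c) := by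
    intro a ha c hc h hh hne
    rw [← map_mul]
    refine hq _ (Finset.mem_union_right _ (Finset.mem_image.2 ⟨(1, a), by simp [ha], by simp⟩)) _
      (Finset.mem_union_right _ (Finset.mem_image.2 ⟨(⟨h, hh⟩, c), by simp [hc], rfl⟩)) hne
  -- the finite set
  let c2 : ℕ := Nat.card (Option (Set Q))
  obtain ⟨N, hN⟩ := exists_nat_gt ((c2 : ℝ) / ε)
  have hN0 : 0 < N := by
    have h1 : (0 : ℝ) ≤ c2 / ε := by positivity
    have h2 : (0 : ℝ) < N := lt_of_le_of_lt h1 hN
    exact_mod_cast h2
  obtain ⟨f, ft, fi, fz, fr⟩ : ∃ f : Pt false H → ((Fin N × (Q₂ × Q)) ⊕ Option (Set Q)) →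
      ((Fin N × (Q₂ × Q)) ⊕ Option (Set Q)),
      (∀ w g a x y, f (.t w g) (.inl (a, (x, y))) = .inl (a, (q₂ w.1 * x, q g * y))) ∧
      (∀ c p, f (.i c) (.inl p) =
        .inr (some {v | ∃ h ∈ H₀, v = q h * q (Quotient.out c) * p.2.2})) ∧
      (∀ p, f .z (.inl p) = .inr none) ∧ (∀ s v, f s (.inr v) = .inr v) := by
    refine ⟨fun s p => match s, p with
      | .t w g, .inl (a, (x, y)) => .inl (a, (q₂ w.1 * x, q g * y))
      | .i c, .inl p => .inr (some {v | ∃ h ∈ H₀, v = q h * q (Quotient.out c) * p.2.2})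
      | .z, .inl _ => .inr none
      | _, .inr v => .inr v, fun _ _ _ _ _ => rfl, fun _ _ => rfl, fun _ => rfl, ?_⟩
    rintro (⟨w, g⟩ | x | _) v <;> rfl
  refine ⟨(Fin N × (Q₂ × Q)) ⊕ Option (Set Q), inferInstance, ⟨.inr none⟩, f, ?_, ?_, ?_⟩
  · rintro (⟨a, x, y⟩ | v)
    · rw [one_def, ft]
      simp
    · rw [fr]
  · intro s hs t ht
    have hall : ∀ p, f s (f t p) = f (s * t) p := by
      rintro (⟨a, x, y⟩ | v)
      · rcases t with ⟨w', g'⟩ | c' | _
        · rw [ft]
          rcases s with ⟨w, g⟩ | c | _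
          · rw [ft, tt, ft]
            simp [mul_assoc]
          · rw [fi, it, fi]
            congr 2
            ext v
            have hd : Quotient.out (ra c g') * (Quotient.out c * g')⁻¹ ∈ H₀ :=
              hmem' (.i c) hs (.t w' g') ht
            set d := Quotient.out (ra c g') * (Quotient.out c * g')⁻¹ with hddef
            have e : Quotient.out (ra c g') = d * Quotient.out c * g' := by
              rw [hddef]; group
            rw [e]
            constructor
            · rintro ⟨h, hh, rfl⟩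
              refine ⟨h * d⁻¹, mul_mem hh (inv_mem hd), ?_⟩
              simp only [map_mul, map_inv]
              group
            · rintro ⟨h, hh, rfl⟩
              refine ⟨h * d, mul_mem hh hd, ?_⟩
              simp only [map_mul]
              group
          · rw [fz, zt, fz]
        · rw [fi, fr, mul_i_false, fi]
        · rw [fz, fr, mul_z_false, fz]
      · rw [fr, fr, fr]
    have : Nat.card {x // f s (f t x) = f (s * t) x} = Nat.card ((Fin N × (Q₂ × Q)) ⊕ Option (Set Q)) :=
      Nat.card_congr (Equiv.subtypeUnivEquiv hall)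
    rw [this]
    have : (0 : ℝ) ≤ Nat.card ((Fin N × (Q₂ × Q)) ⊕ Option (Set Q)) := Nat.cast_nonneg _
    nlinarith
  · intro s hs t ht hst
    have hall : ∀ p : Fin N × (Q₂ × Q), f s (.inl p) ≠ f t (.inl p) := by
      rintro ⟨a, x, y⟩
      rcases s with ⟨w, g⟩ | c | _ <;> rcases t with ⟨w', g'⟩ | c' | _
      · rw [ft, ft]
        intro h
        rw [Sum.inl.injEq, Prod.mk.injEq, Prod.mk.injEq] at h
        obtain ⟨-, h1, h2⟩ := h
        have e1 := mul_right_cancel h1
        have e2 := mul_right_cancel h2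
        have e3 : w = w' := by
          by_contra hne
          exact hqw _ hs _ ht (fun h => hne (Subtype.ext h)) e1
        have e4 : g = g' := by
          by_contra hne
          exact hqg _ hs _ ht hne e2
        exact hst (by rw [e3, e4])
      · rw [ft, fi]; exact Sum.inl_ne_inr
      · rw [ft, fz]; exact Sum.inl_ne_inr
      · rw [ft, fi]; exact Sum.inr_ne_inl
      · rw [fi, fi]
        intro h
        rw [Sum.inr.injEq, Option.some.injEq] at h
        have h1 : q (Quotient.out c) * y ∈ {v | ∃ h ∈ H₀, v = q h * q (Quotient.out c) * y} :=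
          ⟨1, one_mem _, by simp⟩
        rw [h] at h1
        obtain ⟨k, hk, h1⟩ := h1
        have h2 := mul_right_cancel h1
        refine hqr _ hs _ ht k hk ?_ h2
        intro h3
        apply hst
        have h4 : (Quotient.out c : G) = k * Quotient.out c' := h3
        rw [Pt.i.injEq, ← Quotient.out_eq c, ← Quotient.out_eq c', Quotient.eq, rightRel_apply, h4]
        have := H.inv_mem (hle hk)
        simpa using this
      · rw [fi, fz]
        intro h; cases h
      · rw [fz, ft]; exact Sum.inr_ne_inl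
      · rw [fz, fi]
        intro h; cases h
      · exact absurd rfl hst
    have h1 : Nat.card (Fin N × (Q₂ × Q)) ≤ Nat.card {x : (Fin N × (Q₂ × Q)) ⊕ Option (Set Q) // f s x ≠ f t x} :=
      Nat.card_le_card_of_injective (fun p : Fin N × (Q₂ × Q) => ⟨.inl p, hall p⟩) (by
        intro p p' h
        exact Sum.inl.inj (Subtype.ext_iff.1 h))
    have h2 : Nat.card ((Fin N × (Q₂ × Q)) ⊕ Option (Set Q)) = Nat.card (Fin N × (Q₂ × Q)) + c2 := Nat.card_sum
    have h3 : N ≤ Nat.card (Fin N × (Q₂ × Q)) := by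
      have : Nat.card (Fin N × (Q₂ × Q)) = Nat.card (Fin N) * Nat.card (Q₂ × Q) := Nat.card_prod _ _
      rw [this, Nat.card_fin]
      exact Nat.le_mul_of_pos_right _ Nat.card_pos
    have h4 : (c2 : ℝ) < ε * N := by
      rw [div_lt_iff₀ hε] at hN
      linarith
    rw [h2]
    have h5 : (N : ℝ) ≤ Nat.card (Fin N × (Q₂ × Q)) := by exact_mod_cast h3
    have h6 : (Nat.card (Fin N × (Q₂ × Q)) : ℝ) ≤ Nat.card {x : (Fin N × (Q₂ × Q)) ⊕ Option (Set Q) // f s x ≠ f t x} := by
      exact_mod_cast h1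
    push_cast
    have h7 : (0 : ℝ) ≤ c2 := Nat.cast_nonneg _
    nlinarith

theorem sofic_false_conc : Sofic (Pt false HC) := sofic_false rf_GC loc_fin

/-- The identity between the two monoids. -/
def rho : Pt false HC ≃ Pt true HC where
  toFun a := match a with
    | .t w g => .t w g
    | .i x => .i x
    | .z => .z
  invFun a := match a with
    | .t w g => .t w g
    | .i x => .i x
    | .z => .z
  left_inv a := by rcases a with _ | _ | _ <;> rfl
  right_inv a := by rcases a with _ | _ | _ <;> rfl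

lemma rho_t (w : WW HC) (g : GC) : rho (.t w g) = .t w g := rfl

lemma rho_unit (m : Pt false HC) : IsUnit m ↔ IsUnit (rho m) := by
  rw [isUnit_iff, isUnit_iff]
  constructor
  · rintro ⟨g, rfl⟩; exact ⟨g, rfl⟩
  · rintro ⟨g, hg⟩
    refine ⟨g, rho.injective ?_⟩
    rw [hg]; rfl

lemma rho_mul (s t : Pt false HC) (ht : IsUnit t) : rho (s * t) = rho s * rho t := by
  obtain ⟨g, rfl⟩ := (isUnit_iff _).1 ht
  rcases s with ⟨w, g'⟩ | x | _ <;> rfl

end Pool.Agent.X232.SF
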