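import Mathlib

/-! The counting lemma about almost actions of the modular group. -/

set_option autoImplicit false

namespace Pool.Agent.X232.SF

open Finset

variable {X : Type} [Fintype X] [DecidableEq X]

/-- `f` is injective off `B` -/
lemma card_preim_le {f : X → X} {B : Finset X} (hf : Set.InjOn f {x | x ∉ B}) (Z : Finset X) :
    (univ.filter fun x => f x ∈ Z).card ≤ Z.card + B.card := by
  have h1 : (univ.filter fun x => f x ∈ Z) ⊆ ((univ.filter fun x => x ∉ B ∧ f x ∈ Z)) ∪ B := by
    intro x hx
    simp only [mem_filter, mem_univ, true_and, mem_union] at hx ⊢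
    by_cases h : x ∈ B
    · exact Or.inr h
    · exact Or.inl ⟨h, hx⟩
  have h2 : (univ.filter fun x => x ∉ B ∧ f x ∈ Z).card ≤ Z.card := by
    refine card_le_card_of_injOn f (fun x hx => ?_) (fun x hx y hy h => ?_)
    · simp only [coe_filter, mem_univ, true_and, Set.mem_ofPred_eq] at hx
      exact hx.2
    · simp only [coe_filter, mem_univ, true_and, Set.mem_ofPred_eq] at hx hy
      exact hf hx.1 hy.1 h
  exact (card_le_card h1).trans ((card_union_le _ _).trans (by omega))

lemma card_preim_ge {f : X → X} {B : Finset X} (hf : Set.InjOn f {x | x ∉ B}) (Z : Finset X) :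
    Z.card ≤ (univ.filter fun x => f x ∈ Z).card + B.card := by
  -- the image of the complement of `B` misses at most `|B|` points
  have h1 : (Bᶜ.image f).card = Fintype.card X - B.card := by
    rw [card_image_of_injOn, card_compl]
    intro x hx y hy h
    exact hf (by simpa using hx) (by simpa using hy) h
  have h2 : (Bᶜ.image f)ᶜ.card ≤ B.card := by
    rw [card_compl, h1]
    have := card_le_univ B
    omega
  have h3 : Z ⊆ ((univ.filter fun x => f x ∈ Z).image f) ∪ (Bᶜ.image f)ᶜ := by
    intro z hz
    by_cases h : z ∈ Bᶜ.image f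
    · obtain ⟨x, hx, rfl⟩ := mem_image.1 h
      exact mem_union_left _ (mem_image_of_mem f (by simpa using hz))
    · exact mem_union_right _ (by simpa using h)
  calc Z.card ≤ _ := card_le_card h3
    _ ≤ ((univ.filter fun x => f x ∈ Z).image f).card + (Bᶜ.image f)ᶜ.card := card_union_le _ _
    _ ≤ _ := Nat.add_le_add card_image_le h2

/-- The counting lemma: on a finite set with an almost involution `a` and an almost permutation
`b` of order three there is no function `ψ` that increases at almost all points under `a b` and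
`a b b`. -/
theorem key (a b : X → X) (ψ : X → ℕ) (B : Finset X)
    (ha : ∀ x, x ∉ B → a (a x) = x) (hb : ∀ x, x ∉ B → b (b (b x)) = x)
    (h1 : ∀ x, x ∉ B → ψ x < ψ (a (b x))) (h2 : ∀ x, x ∉ B → ψ x < ψ (a (b (b x)))) :
    Fintype.card X ≤ 57 * B.card := by
  classical
  have ia : Set.InjOn a {x | x ∉ B} := by
    intro x hx y hy h
    rw [← ha x hx, ← ha y hy, h]
  have ib : Set.InjOn b {x | x ∉ B} := by
    intro x hx y hy h
    rw [← hb x hx, ← hb y hy, h]
  -- sets of points with bad images
  have c1 : (univ.filter fun x => b x ∈ B).card ≤ 2 * B.card :=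
    (card_preim_le ib B).trans (by omega)
  have c2 : (univ.filter fun x => b (b x) ∈ B).card ≤ 3 * B.card := by
    have := card_preim_le ib (univ.filter fun x => b x ∈ B)
    simp only [mem_filter, mem_univ, true_and] at this
    omega
  have c3 : (univ.filter fun x => a x ∈ B).card ≤ 2 * B.card :=
    (card_preim_le ia B).trans (by omega)
  have c4 : (univ.filter fun x => b (a x) ∈ B).card ≤ 3 * B.card := by
    have := card_preim_le ia (univ.filter fun x => b x ∈ B)
    simp only [mem_filter, mem_univ, true_and] at this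
    omega
  have c5 : (univ.filter fun x => b (b (a x)) ∈ B).card ≤ 4 * B.card := by
    have := card_preim_le ia (univ.filter fun x => b (b x) ∈ B)
    simp only [mem_filter, mem_univ, true_and] at this
    omega
  let A : Finset X := univ.filter fun w => ψ (b w) < ψ w ∧ ψ (b (b w)) < ψ w
  -- the good points outside `A`
  let Gd : Finset X := univ.filter fun w => w ∉ A ∧ w ∉ B ∧ b w ∉ B ∧ b (b w) ∉ B ∧ a w ∉ B ∧
    b (a w) ∉ B ∧ b (b (a w)) ∉ B
  have hGd : Gd.card ≤ A.card := by
    refine card_le_card_of_injOn a (fun w hw => ?_) (fun x hx y hy h => ?_)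
    · simp only [Gd, coe_filter, mem_univ, true_and, Set.mem_ofPred_eq] at hw
      obtain ⟨hA, g0, g1, g2, g3, g4, g5⟩ := hw
      have e1 : ψ (b (b w)) < ψ (a w) := by
        have := h1 _ g2; rwa [hb w g0] at this
      have e2 : ψ (b w) < ψ (a w) := by
        have := h2 _ g1; rwa [hb w g0] at this
      have e3 : ψ (b (b (a w))) < ψ w := by
        have := h1 _ g5; rwa [hb _ g3, ha w g0] at this
      have e4 : ψ (b (a w)) < ψ w := by
        have := h2 _ g4; rwa [hb _ g3, ha w g0] at this
      have e5 : ψ w ≤ ψ (b w) ∨ ψ w ≤ ψ (b (b w)) := by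
        by_contra hc
        push Not at hc
        exact hA (by simp only [A, mem_filter, mem_univ, true_and]; exact hc)
      have e6 : ψ w < ψ (a w) := by rcases e5 with e5 | e5 <;> omega
      simp only [A, coe_filter, mem_univ, true_and, Set.mem_ofPred_eq]
      exact ⟨by omega, by omega⟩
    · simp only [Gd, coe_filter, mem_univ, true_and, Set.mem_ofPred_eq] at hx hy
      exact ia hx.2.1 hy.2.1 h
  -- everything else
  have hcov : (univ : Finset X) ⊆ A ∪ (Gd ∪ (B ∪ ((univ.filter fun x => b x ∈ B) ∪
      ((univ.filter fun x => b (b x) ∈ B) ∪ ((univ.filter fun x => a x ∈ B) ∪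
      ((univ.filter fun x => b (a x) ∈ B) ∪ (univ.filter fun x => b (b (a x)) ∈ B))))))) := by
    intro w _
    simp only [mem_union, Gd, mem_filter, mem_univ, true_and]
    tauto
  have hn : Fintype.card X ≤ A.card + A.card + 15 * B.card := by
    have := card_le_card hcov
    rw [card_univ] at this
    refine this.trans ?_
    refine (card_union_le _ _).trans ?_
    have k1 := card_union_le Gd (B ∪ ((univ.filter fun x => b x ∈ B) ∪
      ((univ.filter fun x => b (b x) ∈ B) ∪ ((univ.filter fun x => a x ∈ B) ∪
      ((univ.filter fun x => b (a x) ∈ B) ∪ (univ.filter fun x => b (b (a x)) ∈ B))))))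
    have k2 := card_union_le B ((univ.filter fun x => b x ∈ B) ∪
      ((univ.filter fun x => b (b x) ∈ B) ∪ ((univ.filter fun x => a x ∈ B) ∪
      ((univ.filter fun x => b (a x) ∈ B) ∪ (univ.filter fun x => b (b (a x)) ∈ B)))))
    have k3 := card_union_le (univ.filter fun x => b x ∈ B)
      ((univ.filter fun x => b (b x) ∈ B) ∪ ((univ.filter fun x => a x ∈ B) ∪
      ((univ.filter fun x => b (a x) ∈ B) ∪ (univ.filter fun x => b (b (a x)) ∈ B))))
    have k4 := card_union_le (univ.filter fun x => b (b x) ∈ B)
      ((univ.filter fun x => a x ∈ B) ∪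
      ((univ.filter fun x => b (a x) ∈ B) ∪ (univ.filter fun x => b (b (a x)) ∈ B)))
    have k5 := card_union_le (univ.filter fun x => a x ∈ B)
      ((univ.filter fun x => b (a x) ∈ B) ∪ (univ.filter fun x => b (b (a x)) ∈ B))
    have k6 := card_union_le (univ.filter fun x => b (a x) ∈ B)
      (univ.filter fun x => b (b (a x)) ∈ B)
    omega
  -- `3 |A| ≤ n + 6 |B|`
  have s1 : A.card ≤ (univ.filter fun x => b x ∈ A).card + B.card := card_preim_ge ib A
  have s2 : A.card ≤ (univ.filter fun x => b (b x) ∈ A).card + 2 * B.card := by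
    have := card_preim_ge ib (univ.filter fun x => b x ∈ A)
    simp only [mem_filter, mem_univ, true_and] at this
    omega
  have s3 : A.card + (univ.filter fun x => b x ∈ A).card + (univ.filter fun x => b (b x) ∈ A).card ≤
      Fintype.card X + 3 * B.card := by
    have e1 : A.card = ∑ x, if x ∈ A then 1 else 0 := by simp
    have e2 : (univ.filter fun x => b x ∈ A).card = ∑ x, if b x ∈ A then 1 else 0 := by simp
    have e3 : (univ.filter fun x => b (b x) ∈ A).card = ∑ x, if b (b x) ∈ A then 1 else 0 := by simp
    have e4 : Fintype.card X + 3 * B.card = ∑ x, (1 + if x ∈ B then 3 else 0) := by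
      rw [sum_add_distrib]; simp [mul_comm]
    rw [e4, e2, e3, e1, ← sum_add_distrib, ← sum_add_distrib]
    refine sum_le_sum fun x _ => ?_
    by_cases hx : x ∈ B
    · rw [if_pos hx]; split_ifs <;> omega
    · rw [if_neg hx]
      have hbx := hb x hx
      have hbx2 : b (b (b (b x))) = b x := by rw [hbx]
      by_cases p1 : x ∈ A <;> by_cases p2 : b x ∈ A <;> by_cases p3 : b (b x) ∈ A <;>
        simp only [p1, p2, p3, if_true, if_false] <;>
        simp only [A, mem_filter, mem_univ, true_and, hbx, hbx2] at p1 p2 p3 <;> omega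
  omega

end Pool.Agent.X232.SF
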