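import Pool.Agent.X232.SF.Defs

/-! The monoids. -/

set_option autoImplicit false

namespace Pool.Agent.X232.SF

open QuotientGroup

variable {G : Type} [Group G]

/-- the monoid acting on the left on the right cosets of `H` -/
def WW (H : Subgroup G) : Submonoid (G × Multiplicative ℤ) where
  carrier := {p | (∀ h ∈ H, p.1 * h * p.1⁻¹ ∈ H) ∧ 0 ≤ Multiplicative.toAdd p.2 ∧
    (Multiplicative.toAdd p.2 = 0 → p.1 = 1)}
  one_mem' := ⟨fun h hh => by simpa using hh, le_rfl, fun _ => rfl⟩
  mul_mem' := by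
    rintro ⟨p, m⟩ ⟨q, n⟩ ⟨h1, h2, h3⟩ ⟨k1, k2, k3⟩
    refine ⟨fun h hh => ?_, ?_, fun h => ?_⟩
    · have := h1 _ (k1 h hh)
      simpa [mul_assoc] using this
    · simp only [Prod.mk_mul_mk, toAdd_mul] at *
      omega
    · simp only [Prod.mk_mul_mk, toAdd_mul] at *
      rw [h3 (by omega), k3 (by omega), mul_one]

/-- the right cosets -/
abbrev RC (H : Subgroup G) : Type := Quotient (rightRel H)

/-- the left action -/
def la {H : Subgroup G} (w : WW H) : RC H → RC H :=
  Quotient.map (fun x => w.1.1 * x) (fun x y h => by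
    rw [← Quotient.eq_iff_equiv, Quotient.eq, rightRel_apply] at h ⊢
    have := w.2.1 _ h
    simpa [mul_assoc] using this)

/-- the right action -/
def ra {H : Subgroup G} (x : RC H) (g : G) : RC H :=
  Quotient.map (fun x => x * g) (fun x y h => by
    rw [← Quotient.eq_iff_equiv, Quotient.eq, rightRel_apply] at h ⊢
    simpa [mul_assoc] using h) x

lemma la_one {H : Subgroup G} (x : RC H) : la (1 : WW H) x = x := by
  induction x using Quotient.inductionOn with
  | h x => show (Quotient.mk _ (1 * x) : RC H) = _; rw [one_mul]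

lemma la_mul {H : Subgroup G} (v w : WW H) (x : RC H) : la (v * w) x = la v (la w x) := by
  induction x using Quotient.inductionOn with
  | h x =>
    show (Quotient.mk _ ((v.1.1 * w.1.1) * x) : RC H) = Quotient.mk _ (v.1.1 * (w.1.1 * x))
    rw [mul_assoc]

lemma ra_one {H : Subgroup G} (x : RC H) : ra x 1 = x := by
  induction x using Quotient.inductionOn with
  | h x => show (Quotient.mk _ (x * 1) : RC H) = _; rw [mul_one]

lemma ra_mul {H : Subgroup G} (x : RC H) (g h : G) : ra x (g * h) = ra (ra x g) h := by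
  induction x using Quotient.inductionOn with
  | h x =>
    show (Quotient.mk _ (x * (g * h)) : RC H) = Quotient.mk _ (x * g * h)
    rw [mul_assoc]

lemma la_ra {H : Subgroup G} (w : WW H) (x : RC H) (g : G) : la w (ra x g) = ra (la w x) g := by
  induction x using Quotient.inductionOn with
  | h x =>
    show (Quotient.mk _ (w.1.1 * (x * g)) : RC H) = Quotient.mk _ (w.1.1 * x * g)
    rw [mul_assoc]

/-- The elements of the two monoids: pairs `(w, g)`, right cosets of `H`, and a further point. -/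
inductive Pt (b : Bool) (H : Subgroup G) : Type
  | t (w : WW H) (g : G)
  | i (x : RC H)
  | z

/-- multiplication -/
def Pt.mul {b : Bool} {H : Subgroup G} : Pt b H → Pt b H → Pt b H
  | .t w g, .t w' g' => .t (w * w') (g * g')
  | .t w _, .i x => .i (cond b (la w x) x)
  | .t _ _, .z => .z
  | .i x, .t _ g => .i (ra x g)
  | .i _, .i y => cond b .z (.i y)
  | .i _, .z => .z
  | .z, .t _ _ => .z
  | .z, .i y => cond b .z (.i y)
  | .z, .z => .z

instance (b : Bool) (H : Subgroup G) : Monoid (Pt b H) where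
  mul := Pt.mul
  one := .t 1 1
  one_mul a := by
    rcases a with ⟨w, g⟩ | x | _
    · show Pt.t (1 * w) (1 * g) = _
      rw [one_mul, one_mul]
    · show Pt.i (cond b (la 1 x) x) = _
      rw [la_one, Bool.cond_self]
    · rfl
  mul_one a := by
    rcases a with ⟨w, g⟩ | x | _
    · show Pt.t (w * 1) (g * 1) = _
      rw [mul_one, mul_one]
    · show Pt.i (ra x 1) = _
      rw [ra_one]
    · rfl
  mul_assoc a c d := by
    show Pt.mul (Pt.mul a c) d = Pt.mul a (Pt.mul c d)
    cases b <;> rcases a with ⟨w, g⟩ | x | _ <;> rcases c with ⟨w', g'⟩ | x' | _ <;>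
      rcases d with ⟨w'', g''⟩ | x'' | _ <;>
      simp [Pt.mul, mul_assoc, la_mul, ra_mul, la_ra]

section

variable {b : Bool} {H : Subgroup G}

lemma tt (w w' : WW H) (g g' : G) : (Pt.t w g : Pt b H) * Pt.t w' g' = Pt.t (w * w') (g * g') := rfl

lemma it (x : RC H) (w : WW H) (g : G) : (Pt.i x : Pt b H) * Pt.t w g = Pt.i (ra x g) := rfl

lemma zt (w : WW H) (g : G) : (Pt.z : Pt b H) * Pt.t w g = Pt.z := rfl

lemma one_def : (1 : Pt b H) = Pt.t 1 1 := rfl

lemma WW_eq_one {w : WW H} (h : Multiplicative.toAdd w.1.2 = 0) : w = 1 := by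
  have h1 := w.2.2.2 h
  refine Subtype.ext (Prod.ext h1 ?_)
  exact Multiplicative.toAdd.injective h

/-- `a m c = 1` forces `m` to be a unit -/
lemma of_mul_mul_eq_one {a m c : Pt b H} (h : a * m * c = 1) : ∃ g, m = Pt.t 1 g := by
  rcases a with ⟨w, g⟩ | x | _ <;> rcases m with ⟨w', g'⟩ | x' | _ <;>
    rcases c with ⟨w'', g''⟩ | x'' | _
  · refine ⟨g', ?_⟩
    have h1 : Pt.t (w * w' * w'') (g * g' * g'') = (Pt.t 1 1 : Pt b H) := h
    rw [Pt.t.injEq] at h1
    have h2 := congrArg (fun v : WW H => Multiplicative.toAdd v.1.2) h1.1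
    simp only [Submonoid.coe_mul, Prod.snd_mul, toAdd_mul, Submonoid.coe_one, Prod.snd_one,
      toAdd_one] at h2
    have h3 := w.2.2.1
    have h4 := w'.2.2.1
    have h5 := w''.2.2.1
    have : Multiplicative.toAdd w'.1.2 = 0 := by omega
    rw [WW_eq_one this]
  all_goals
    exfalso
    cases b <;> revert h <;> rw [one_def] <;> intro h <;> cases h

lemma isUnit_t (g : G) : IsUnit (Pt.t 1 g : Pt b H) :=
  ⟨⟨Pt.t 1 g, Pt.t 1 g⁻¹, by rw [tt, one_mul, mul_inv_cancel]; rfl,
    by rw [tt, one_mul, inv_mul_cancel]; rfl⟩, rfl⟩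

lemma isUnit_iff (m : Pt b H) : IsUnit m ↔ ∃ g, m = Pt.t 1 g := by
  constructor
  · rintro ⟨u, rfl⟩
    exact of_mul_mul_eq_one (a := 1) (c := ((u⁻¹ : (Pt b H)ˣ) : Pt b H)) (by simp)
  · rintro ⟨g, rfl⟩; exact isUnit_t g

lemma jOne : JOneIsGroup (Pt b H) := by
  intro m
  constructor
  · intro h
    obtain ⟨a, c, h⟩ := h 1
    obtain ⟨g, rfl⟩ := of_mul_mul_eq_one h
    exact isUnit_t g
  · rintro ⟨u, rfl⟩ y
    exact ⟨((u⁻¹ : (Pt b H)ˣ) : Pt b H), y, by simp⟩

/-- the group element -/
def gp : Pt b H → G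
  | .t _ g => g
  | _ => 1

/-- the units are `G` -/
def unitsHom : (Pt b H)ˣ →* G where
  toFun u := gp u.1
  map_one' := rfl
  map_mul' u v := by
    obtain ⟨g, hg⟩ := (isUnit_iff _).1 u.isUnit
    obtain ⟨h, hh⟩ := (isUnit_iff _).1 v.isUnit
    rw [Units.val_mul, hg, hh]; rfl

lemma units_eq (u : (Pt b H)ˣ) : u.1 = Pt.t 1 (unitsHom u) := by
  obtain ⟨g, hg⟩ := (isUnit_iff _).1 u.isUnit
  show u.1 = Pt.t 1 (gp u.1)
  rw [hg]; rfl

lemma unitsHom_inj : Function.Injective (unitsHom : (Pt b H)ˣ →* G) := by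
  intro u v h
  refine Units.ext ?_
  rw [units_eq u, units_eq v, h]

lemma unitsHom_surj : Function.Surjective (unitsHom : (Pt b H)ˣ →* G) := by
  intro g
  obtain ⟨u, hu⟩ := isUnit_t (b := b) (H := H) g
  exact ⟨u, by show gp u.1 = g; rw [hu]; rfl⟩

lemma RF.of_injective {A C : Type} [Group A] [Group C] (h : RF C) (f : A →* C)
    (hf : Function.Injective f) : RF A := by
  intro g hg
  obtain ⟨Q, i1, i2, q, hq⟩ := h (f g) (fun h => hg (hf (by rw [h, map_one])))
  exact ⟨Q, i1, i2, q.comp f, hq⟩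

end

/-! ### Non-soficity -/

/-- The main result: the monoid is not sofic. -/
theorem not_sofic {H : Subgroup G} {s u : G} (hs : s * s = 1) (hu : u * (u * u) = 1)
    (hL : ∀ h ∈ H, (s * u) * h * (s * u)⁻¹ ∈ H) (hR : ∀ h ∈ H, (s * (u * u)) * h * (s * (u * u))⁻¹ ∈ H)
    {E : Type} [Group E] [Fintype E] (hE : 512 ≤ Fintype.card E) (j : E →* G)
    (hj : ∀ e, j e ∈ H → e = 1) (hjL : ∀ e, (s * u) * j e * (s * u)⁻¹ ∈ H)
    (hjR : ∀ e, (s * (u * u)) * j e * (s * (u * u))⁻¹ ∈ H) : ¬ Sofic (Pt true H) := by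
  classical
  intro hsof
  set L := s * u with hLdef
  set R := s * (u * u) with hRdef
  let lw : Pt true H := .t ⟨(L, Multiplicative.ofAdd 1), hL, by simp, by simp⟩ 1
  let rw' : Pt true H := .t ⟨(R, Multiplicative.ofAdd 1), hR, by simp, by simp⟩ 1
  let io : G → Pt true H := fun g => .t 1 g
  have iom : ∀ g h, io g * io h = io (g * h) := fun g h => by
    show Pt.t (1 * 1) (g * h) = _
    rw [one_mul]
  have io1 : io 1 = 1 := rfl
  let m : Pt true H := .i (Quotient.mk _ 1)
  have mio : ∀ g, m * io g = .i (Quotient.mk _ g) := fun g => by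
    show Pt.i (Quotient.mk _ (1 * g)) = _
    rw [one_mul]
  have lm : lw * m = m * io L := by
    rw [mio]
    show Pt.i (Quotient.mk _ (L * 1)) = _
    rw [mul_one]
  have rm : rw' * m = m * io R := by
    rw [mio]
    show Pt.i (Quotient.mk _ (R * 1)) = _
    rw [mul_one]
  have ceq : ∀ g h : G, (Pt.i (Quotient.mk _ g) : Pt true H) = .i (Quotient.mk _ h) ↔
      h * g⁻¹ ∈ H := by
    intro g h
    rw [Pt.i.injEq, Quotient.eq, rightRel_apply]
  obtain ⟨c, hc⟩ : ∃ c : Fin 10 → Pt true H, c = ![io s, io u, io (u * u), io L, io R, io L⁻¹,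
    io R⁻¹, m, lw, rw'] := ⟨_, rfl⟩
  let K : Finset (Pt true H) :=
    (Finset.univ.image c) ∪
      (Finset.univ.image (fun e => io (j e)) ∪ (Finset.univ.image (fun e => io (L * j e)) ∪
        (Finset.univ.image (fun e => io (R * j e)) ∪ Finset.univ.image (fun e => m * io (j e)))))
  have kc : ∀ i, c i ∈ K := fun i =>
    Finset.mem_union_left _ (Finset.mem_image_of_mem c (Finset.mem_univ i))
  have k1 : io s ∈ K := by have := kc 0; rw [hc] at this; exact this
  have k2 : io u ∈ K := by have := kc 1; rw [hc] at this; exact this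
  have k3 : io (u * u) ∈ K := by have := kc 2; rw [hc] at this; exact this
  have k4 : io L ∈ K := by have := kc 3; rw [hc] at this; exact this
  have k5 : io R ∈ K := by have := kc 4; rw [hc] at this; exact this
  have k6 : io L⁻¹ ∈ K := by have := kc 5; rw [hc] at this; exact this
  have k7 : io R⁻¹ ∈ K := by have := kc 6; rw [hc] at this; exact this
  have k8 : m ∈ K := by have := kc 7; rw [hc] at this; exact this
  have k9 : lw ∈ K := by have := kc 8; rw [hc] at this; exact this
  have k10 : rw' ∈ K := by have := kc 9; rw [hc] at this; exact this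
  have k11 : ∀ e, io (j e) ∈ K := fun e =>
    Finset.mem_union_right _ (Finset.mem_union_left _
      (Finset.mem_image_of_mem (fun e => io (j e)) (Finset.mem_univ e)))
  have k12 : ∀ e, io (L * j e) ∈ K := fun e =>
    Finset.mem_union_right _ (Finset.mem_union_right _ (Finset.mem_union_left _
      (Finset.mem_image_of_mem (fun e => io (L * j e)) (Finset.mem_univ e))))
  have k13 : ∀ e, io (R * j e) ∈ K := fun e =>
    Finset.mem_union_right _ (Finset.mem_union_right _ (Finset.mem_union_right _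
      (Finset.mem_union_left _
        (Finset.mem_image_of_mem (fun e => io (R * j e)) (Finset.mem_univ e)))))
  have k14 : ∀ e, m * io (j e) ∈ K := fun e =>
    Finset.mem_union_right _ (Finset.mem_union_right _ (Finset.mem_union_right _
      (Finset.mem_union_right _
        (Finset.mem_image_of_mem (fun e => m * io (j e)) (Finset.mem_univ e)))))
  set d := Fintype.card E with hd
  obtain ⟨X, i1, i2, f, B, hB, f1, hf⟩ := sofic_good hsof K (114 * (7 + 8 * d))
  -- multiplicativity and separation off `B`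
  have mu : ∀ x, x ∉ B → ∀ a ∈ K, ∀ c ∈ K, f a (f c x) = f (a * c) x :=
    fun x hx a ha c hc => (hf x hx a ha c hc).1
  have sep : ∀ x, x ∉ B → ∀ a ∈ K, ∀ c ∈ K, a ≠ c → f a x ≠ f c x :=
    fun x hx a ha c hc => (hf x hx a ha c hc).2
  have h3 : ∀ x, x ∉ B → ∀ i k : E, i ≠ k → f m (f (io (j i)) x) ≠ f m (f (io (j k)) x) := by
    intro x hx i k hik
    rw [mu x hx _ k8 _ (k11 i), mu x hx _ k8 _ (k11 k)]
    refine sep x hx _ (k14 i) _ (k14 k) ?_
    rw [mio, mio, Ne, ceq]
    intro h
    have := hj (k * i⁻¹) (by rw [map_mul, map_inv]; exact h)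
    exact hik (mul_inv_eq_one.1 this).symm
  have h4 : ∀ x, x ∉ B → ∀ i k : E, f (io (j i)) (f (io (j k)) x) = f (io (j (i * k))) x := by
    intro x hx i k
    rw [mu x hx _ (k11 i) _ (k11 k), iom, map_mul]
  have h4' : ∀ x, f (io (j 1)) x = x := by
    intro x; rw [map_one, io1, f1]
  have main : ∀ (T : G) (w : Pt true H), io T ∈ K → io T⁻¹ ∈ K → w ∈ K → (∀ e, io (T * j e) ∈ K) →
      w * m = m * io T → (∀ e, T * j e * T⁻¹ ∈ H) →
      d * (Finset.univ.filter fun x => cc (f m) (f (io T) x) ≤ cc (f m) x).card ≤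
        2 * Fintype.card X + (3 * d + 4 * d ^ 2) * B.card := by
    intro T w kT kT' kw kTe hwm hTH
    refine fib (E := E) (f m) (f w) (f (io T)) (fun e => f (io (j e))) B ?_ ?_ h3 h4 h4' ?_
    · intro x hx
      rw [mu x hx _ k8 _ kT, mu x hx _ kw _ k8, hwm]
    · intro x hx e
      rw [mu x hx _ kT _ (k11 e), iom, mu x hx _ k8 _ (kTe e), mu x hx _ k8 _ kT, mio, mio]
      congr 1
      rw [ceq]
      have := H.inv_mem (hTH e)
      simpa [mul_assoc] using this
    · intro x hx y hy h
      have e1 : ∀ x, x ∉ B → f (io T⁻¹) (f (io T) x) = x := by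
        intro x hx
        rw [mu x hx _ kT' _ kT, iom, inv_mul_cancel, io1, f1]
      rw [← e1 x hx, ← e1 y hy, h]
  have mL := main L lw k4 k6 k9 k12 lm hjL
  have mR := main R rw' k5 k7 k10 k13 rm hjR
  set BL := Finset.univ.filter fun x => cc (f m) (f (io L) x) ≤ cc (f m) x with hBL
  set BR := Finset.univ.filter fun x => cc (f m) (f (io R) x) ≤ cc (f m) x with hBR
  have hkey := key (f (io s)) (f (io u)) (cc (f m)) (B ∪ (BL ∪ BR)) ?_ ?_ ?_ ?_
  · have c1 := Finset.card_union_le B (BL ∪ BR)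
    have c2 := Finset.card_union_le BL BR
    have hn : Fintype.card X ≤ 57 * (B.card + BL.card + BR.card) := by omega
    have hn2 : d * Fintype.card X ≤ 57 * (d * B.card + d * BL.card + d * BR.card) := by
      calc d * Fintype.card X ≤ d * (57 * (B.card + BL.card + BR.card)) :=
            Nat.mul_le_mul_left _ hn
        _ = _ := by ring
    have hn3 : d * Fintype.card X ≤ 57 * (d * B.card + 2 * (2 * Fintype.card X +
        (3 * d + 4 * d ^ 2) * B.card)) := by omega
    have hn4 : 2 * (d * Fintype.card X) ≤ 456 * Fintype.card X +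
        d * (114 * (7 + 8 * d) * B.card) := by
      calc 2 * (d * Fintype.card X) ≤ 2 * (57 * (d * B.card + 2 * (2 * Fintype.card X +
        (3 * d + 4 * d ^ 2) * B.card))) := Nat.mul_le_mul_left _ hn3
        _ = _ := by ring
    have hn5 : d * (114 * (7 + 8 * d) * B.card) ≤ d * Fintype.card X :=
      Nat.mul_le_mul_left _ hB.le
    have hn6 : d * Fintype.card X ≤ 456 * Fintype.card X := by omega
    have hpos : 0 < Fintype.card X := lt_of_le_of_lt (Nat.zero_le _) hB
    have := Nat.le_of_mul_le_mul_right hn6 hpos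
    omega
  · intro x hx
    have hx' : x ∉ B := fun h => hx (Finset.mem_union_left _ h)
    rw [mu x hx' _ k1 _ k1, iom, hs, io1, f1]
  · intro x hx
    have hx' : x ∉ B := fun h => hx (Finset.mem_union_left _ h)
    rw [mu x hx' _ k2 _ k2, iom, mu x hx' _ k2 _ k3, iom, hu, io1, f1]
  · intro x hx
    have hx' : x ∉ B := fun h => hx (Finset.mem_union_left _ h)
    have hx2 : x ∉ BL := fun h => hx (Finset.mem_union_right _ (Finset.mem_union_left _ h))
    rw [mu x hx' _ k1 _ k2, iom]
    simp only [hBL, Finset.mem_filter, Finset.mem_univ, true_and, not_le] at hx2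
    exact hx2
  · intro x hx
    have hx' : x ∉ B := fun h => hx (Finset.mem_union_left _ h)
    have hx2 : x ∉ BR := fun h => hx (Finset.mem_union_right _ (Finset.mem_union_right _ h))
    rw [mu x hx' _ k2 _ k2, iom, mu x hx' _ k1 _ k3, iom]
    simp only [hBR, Finset.mem_filter, Finset.mem_univ, true_and, not_le] at hx2
    exact hx2

end Pool.Agent.X232.SF
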